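import Mathlib

/-!
# T5, block CNT: number of window elements and assembly (abstract form)

`VW vlo vhi ρ` has one element in each block of length `2 ^ lev v`, `4 ^ lev v ≤ v`.
-/

namespace Pool.Agent.Helper50.T5

open Finset

/-- level of `v`: `4 ^ lev v ≤ v < 4 ^ (lev v + 1)` -/
def lev (v : ℕ) : ℕ := Nat.log 4 v

/-- one element per block; `ρ L b` is the offset in the block number `b` of level `L` -/
def VW (vlo vhi : ℕ) (ρ : ℕ → ℕ → ℕ) : Finset ℕ :=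
  (Ico vlo vhi).filter (fun v => v % 2 ^ lev v = ρ (lev v) (v / 2 ^ lev v))

theorem level_mem (vlo vhi : ℕ) (ρ : ℕ → ℕ → ℕ) (hρ : ∀ L b, ρ L b < 2 ^ L) (L b : ℕ)
    (h1 : 2 ^ L ≤ b) (h2 : b < 4 * 2 ^ L) (hlo : vlo ≤ 4 ^ L) (hhi : 4 ^ (L + 1) ≤ vhi) :
    b * 2 ^ L + ρ L b ∈ VW vlo vhi ρ ∧
      b * 2 ^ L + ρ L b < 4 ^ (L + 1) ∧
      (b * 2 ^ L + ρ L b) / 2 ^ L = b := by
  set r := ρ L b with hr
  have hr1 : r < 2 ^ L := hρ L b
  have h4 : (4 : ℕ) ^ L = 2 ^ L * 2 ^ L := by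
    rw [← mul_pow]
    norm_num
  have hlow : 4 ^ L ≤ b * 2 ^ L + r := by
    rw [h4]
    exact le_trans (Nat.mul_le_mul_right _ h1) (Nat.le_add_right _ _)
  have hup : b * 2 ^ L + r < 4 ^ (L + 1) := by
    rw [pow_succ, h4]
    have h5 : (b + 1) * 2 ^ L ≤ (4 * 2 ^ L) * 2 ^ L := Nat.mul_le_mul_right _ h2
    nlinarith
  have hlev : lev (b * 2 ^ L + r) = L := by
    unfold lev
    rw [Nat.log_eq_iff]
    · exact ⟨hlow, hup⟩
    · right
      refine ⟨by norm_num, ?_⟩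
      have : 0 < (4 : ℕ) ^ L := by positivity
      omega
  have hdiv : (b * 2 ^ L + r) / 2 ^ L = b := by
    rw [mul_comm, Nat.mul_add_div (by positivity), Nat.div_eq_of_lt hr1, add_zero]
  have hmod : (b * 2 ^ L + r) % 2 ^ L = r := by
    rw [mul_comm, Nat.mul_add_mod, Nat.mod_eq_of_lt hr1]
  refine ⟨?_, hup, hdiv⟩
  unfold VW
  rw [Finset.mem_filter, Finset.mem_Ico]
  refine ⟨⟨by omega, by omega⟩, ?_⟩
  rw [hlev, hmod, hdiv]

/-- a full level gives `3 * 2 ^ L` elements -/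
theorem card_level_ge (vlo vhi : ℕ) (ρ : ℕ → ℕ → ℕ) (hρ : ∀ L b, ρ L b < 2 ^ L) (L : ℕ)
    (hlo : vlo ≤ 4 ^ L) (hhi : 4 ^ (L + 1) ≤ vhi) :
    3 * 2 ^ L ≤ ((VW vlo vhi ρ).filter (fun v => v < 4 ^ (L + 1))).card := by
  have h : ((Finset.Ico (2 ^ L) (4 * 2 ^ L)).image
      (fun b => b * 2 ^ L + ρ L b)).card = 3 * 2 ^ L := by
    rw [Finset.card_image_of_injOn, Nat.card_Ico]
    · omega
    · intro b hb c hc hbc
      rw [Finset.coe_Ico, Set.mem_Ico] at hb hc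
      have h1 := (level_mem vlo vhi ρ hρ L b hb.1 hb.2 hlo hhi).2.2
      have h2 := (level_mem vlo vhi ρ hρ L c hc.1 hc.2 hlo hhi).2.2
      simp only at hbc
      rw [← h1, ← h2, hbc]
  rw [← h]
  apply Finset.card_le_card
  intro v hv
  rw [Finset.mem_image] at hv
  obtain ⟨b, hb, rfl⟩ := hv
  rw [Finset.mem_Ico] at hb
  have h3 := level_mem vlo vhi ρ hρ L b hb.1 hb.2 hlo hhi
  rw [Finset.mem_filter]
  exact ⟨h3.1, h3.2.1⟩

/-- WIN: number of window elements below `t` -/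
theorem card_VW_ge (vlo vhi : ℕ) (ρ : ℕ → ℕ → ℕ) (hρ : ∀ L b, ρ L b < 2 ^ L) (t : ℕ)
    (h16 : 16 ≤ t) (hlo : 16 * vlo ≤ t) (hhi : t ≤ vhi) :
    (3 / 4 : ℝ) * Real.sqrt t ≤ (((VW vlo vhi ρ).filter (fun v => v < t)).card : ℝ) := by
  obtain ⟨L, hL1, hL2⟩ : ∃ L : ℕ, 4 ^ (L + 1) ≤ t ∧ t < 4 ^ (L + 2) := by
    have h3 : 1 ≤ Nat.log 4 t := Nat.log_pos (by norm_num) (by omega)
    refine ⟨Nat.log 4 t - 1, ?_, ?_⟩
    · have : Nat.log 4 t - 1 + 1 = Nat.log 4 t := by omega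
      rw [this]
      exact Nat.pow_log_le_self 4 (by omega)
    · have : Nat.log 4 t - 1 + 2 = Nat.log 4 t + 1 := by omega
      rw [this]
      exact Nat.lt_pow_succ_log_self (by norm_num) t
  have h4 : (4 : ℕ) ^ (L + 2) = 16 * 4 ^ L := by rw [pow_add]; ring
  rw [h4] at hL2
  have hcard := card_level_ge vlo vhi ρ hρ L (by omega) (le_trans hL1 hhi)
  have hsub : ((VW vlo vhi ρ).filter (fun v => v < 4 ^ (L + 1))).card ≤
      ((VW vlo vhi ρ).filter (fun v => v < t)).card := by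
    apply Finset.card_le_card
    intro v hv
    rw [Finset.mem_filter] at hv ⊢
    exact ⟨hv.1, by omega⟩
  set m := ((VW vlo vhi ρ).filter (fun v => v < t)).card with hm
  have hm1 : 3 * 2 ^ L ≤ m := le_trans hcard hsub
  have h9 : 9 * t ≤ 16 * m ^ 2 := by
    have h10 : (3 * 2 ^ L) ^ 2 ≤ m ^ 2 := Nat.pow_le_pow_left hm1 2
    have h11 : (3 * 2 ^ L) ^ 2 = 9 * 4 ^ L := by
      rw [mul_pow, ← pow_mul, mul_comm L 2, pow_mul]
      norm_num
    omega
  have h12 : (9 : ℝ) * t ≤ 16 * (m : ℝ) ^ 2 := by exact_mod_cast h9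
  have h13 : Real.sqrt t ≤ 4 / 3 * (m : ℝ) := by
    rw [Real.sqrt_le_left (by positivity)]
    nlinarith
  linarith

/-- WIN in the scale of the elements: the number of `v` with `c0 + N * v ≤ y` -/
theorem card_VW_below (vlo vhi : ℕ) (ρ : ℕ → ℕ → ℕ) (hρ : ∀ L b, ρ L b < 2 ^ L) (N c0 y : ℕ)
    (hN : 0 < N) (hc : 2 * c0 ≤ y) (hy : 64 * N ≤ y) (hlo : 64 * (N * vlo) ≤ y)
    (hhi : y ≤ c0 + N * vhi) :
    (1 / 2 : ℝ) * Real.sqrt ((y : ℝ) / (N : ℝ)) ≤
      (((VW vlo vhi ρ).filter (fun v => c0 + N * v ≤ y)).card : ℝ) := by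
  set t := (y - c0) / N with ht
  have hle : N * t ≤ y - c0 := Nat.mul_div_le _ _
  have hlt : y - c0 < N * (t + 1) := by
    have := Nat.lt_mul_div_succ (y - c0) hN
    simpa [ht, Nat.add_comm] using this
  have h16 : 16 ≤ t := by
    by_contra hcon
    push Not at hcon
    have : N * (t + 1) ≤ N * 16 := Nat.mul_le_mul_left _ (by omega)
    omega
  have hlo2 : 16 * vlo ≤ t := by
    by_contra hcon
    push Not at hcon
    have h2 : N * (t + 1) ≤ N * (16 * vlo) := Nat.mul_le_mul_left _ (by omega)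
    have h3 : N * (16 * vlo) = 16 * (N * vlo) := by ring
    omega
  have hhi2 : t ≤ vhi := by
    have h2 : N * t ≤ N * vhi := by omega
    exact Nat.le_of_mul_le_mul_left h2 hN
  have h := card_VW_ge vlo vhi ρ hρ t h16 hlo2 hhi2
  have hsub : (((VW vlo vhi ρ).filter (fun v => v < t)).card : ℝ) ≤
      (((VW vlo vhi ρ).filter (fun v => c0 + N * v ≤ y)).card : ℝ) := by
    exact_mod_cast Finset.card_le_card (by
      intro v hv
      rw [Finset.mem_filter] at hv ⊢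
      refine ⟨hv.1, ?_⟩
      have h6 : N * v ≤ N * t := Nat.mul_le_mul_left _ hv.2.le
      omega)
  refine le_trans ?_ (le_trans h hsub)
  have h7 : (y : ℝ) / (N : ℝ) ≤ (3 / 2) ^ 2 * (t : ℝ) := by
    rw [div_le_iff₀ (by exact_mod_cast hN)]
    -- y ≤ 2 (y - c0) < 2 N (t + 1) ≤ (9/4) N t
    have h8 : 8 * y ≤ 18 * (t * N) := by
      have h9 : y ≤ 2 * (y - c0) := by omega
      have h10 : 16 * (N * (t + 1)) ≤ 18 * (t * N) := by
        have : 16 * N ≤ t * N := Nat.mul_le_mul_right _ h16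
        have h11 : N * (t + 1) = t * N + N := by ring
        omega
      omega
    have h12 : (8 : ℝ) * y ≤ 18 * ((t : ℝ) * N) := by exact_mod_cast h8
    nlinarith
  have h13 : Real.sqrt ((y : ℝ) / (N : ℝ)) ≤ 3 / 2 * Real.sqrt t := by
    rw [show (3 / 2 : ℝ) * Real.sqrt t = Real.sqrt ((3 / 2) ^ 2 * (t : ℝ)) by
      rw [Real.sqrt_mul (by positivity), Real.sqrt_sq (by norm_num)]]
    exact Real.sqrt_le_sqrt h7
  linarith

/-- ASM: bounded fibres give many values -/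
theorem card_image_ge {α : Type*} [DecidableEq α] (X : Finset α) (V : Finset ℕ) (el : α → ℕ → ℕ)
    (M : ℕ) (hM : ∀ m, ((X ×ˢ V).filter (fun q => el q.1 q.2 = m)).card ≤ M)
    (A : Finset ℕ) (hA : ∀ x ∈ X, ∀ v ∈ V, el x v ∈ A) :
    X.card * V.card ≤ M * A.card := by
  rw [← Finset.card_product]
  apply Finset.card_le_mul_card_image_of_maps_to (f := fun q : α × ℕ => el q.1 q.2)
  · intro q hq
    rw [Finset.mem_product] at hq
    exact hA q.1 hq.1 q.2 hq.2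
  · intro m _
    exact hM m

/-- ASM below `y`: `el x v ≤ c0 + N * v`, `c0 + N * v ≤ y` -/
theorem card_below_ge {α : Type*} [DecidableEq α] (X : Finset α) (vlo vhi : ℕ) (ρ : ℕ → ℕ → ℕ)
    (hρ : ∀ L b, ρ L b < 2 ^ L) (el : α → ℕ → ℕ) (M : ℕ) (hM0 : 0 < M)
    (hM : ∀ m, ((X ×ˢ VW vlo vhi ρ).filter (fun q => el q.1 q.2 = m)).card ≤ M)
    (A : Finset ℕ) (hA : ∀ x ∈ X, ∀ v ∈ VW vlo vhi ρ, el x v ∈ A)
    (N c0 y : ℕ) (hel : ∀ x ∈ X, ∀ v, el x v < c0 + N * v)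
    (hN : 0 < N) (hc : 2 * c0 ≤ y) (hy : 64 * N ≤ y) (hlo : 64 * (N * vlo) ≤ y)
    (hhi : y ≤ c0 + N * vhi) :
    (X.card : ℝ) * Real.sqrt ((y : ℝ) / (N : ℝ)) / (2 * M) ≤
      ((A.filter (fun a => a < y)).card : ℝ) := by
  have h1 := card_VW_below vlo vhi ρ hρ N c0 y hN hc hy hlo hhi
  set W := (VW vlo vhi ρ).filter (fun v => c0 + N * v ≤ y) with hW
  have h2 := card_image_ge X W el M (fun m => le_trans (Finset.card_le_card (by
      intro q hq
      rw [Finset.mem_filter, Finset.mem_product] at hq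
      rw [Finset.mem_filter, Finset.mem_product]
      refine ⟨⟨hq.1.1, ?_⟩, hq.2⟩
      have := hq.1.2
      rw [hW, Finset.mem_filter] at this
      exact this.1)) (hM m)) (A.filter (fun a => a < y)) (by
      intro x hx v hv
      rw [hW, Finset.mem_filter] at hv
      rw [Finset.mem_filter]
      exact ⟨hA x hx v hv.1, lt_of_lt_of_le (hel x hx v) hv.2⟩)
  have h3 : ((X.card : ℝ)) * (W.card : ℝ) ≤ (M : ℝ) *
      ((A.filter (fun a => a < y)).card : ℝ) := by exact_mod_cast h2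
  have h4 : (X.card : ℝ) * ((1 / 2 : ℝ) * Real.sqrt ((y : ℝ) / (N : ℝ))) ≤
      (X.card : ℝ) * (W.card : ℝ) := mul_le_mul_of_nonneg_left h1 (by positivity)
  rw [div_le_iff₀ (by positivity)]
  nlinarith

end Pool.Agent.Helper50.T5
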