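import Pool.Agent.Helper11.T5.Defs
import Pool.Agent.Helper75.T5.Dec
import Pool.Agent.Helper75.T4.Inj
import Pool.Agent.Helper39.ET.CardXX

/-!
# T5a (MP_12a1af), block CNT: sizes, range of the elements
-/

set_option autoImplicit false

namespace Pool.Agent.Helper50.T5

open Finset Pool.Agent.Helper27.T4 Pool.Agent.Helper27.T5
open Pool.Agent.Helper5.ET hiding Key vlo vhi Mk keysOf AA
open Pool.Agent.Helper22.HW Pool.Agent.Helper57.T5
open Pool.Agent.Helper39.T5 Pool.Agent.Helper11.T5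

variable {m k l j : ℕ}

theorem XA_eq (m k l : ℕ) : XA m k l = Nj l * LA m k (era l) * vlo m k (era l) := by
  unfold XA XT TA
  ring

theorem Nj_pos' (l : ℕ) : 0 < Nj l := NN_pos pr_prime _

theorem LA_le (hb : 10 * m ≤ la j) (hk : k + 2 ≤ m) :
    LA m k j ≤ (10 ^ 6) ^ (W m j 1 - W m j (k + 1)) := by
  unfold LA
  rw [LL_QQ]
  refine Pool.Agent.Helper30.T5.Lp_le (by omega) (by omega) ?_
  exact le_trans (by norm_num) (Pool.Agent.Helper27.T5.rt_ge hb (by omega))

theorem vlo_ge (hb : 10 * m ≤ la j) (hk : k + 2 ≤ m) :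
    (10 ^ 6) ^ W m j (k + 1) ≤ vlo m k j := by
  have h1 := LA_le (k := k) hb hk
  have h2 : W m j (k + 1) ≤ W m j 1 := Pool.Agent.Helper30.T5.W_anti m j (by omega)
  unfold vlo
  refine le_trans ?_ (Nat.le_succ _)
  rw [Nat.le_div_iff_mul_le (LA_pos m k j)]
  refine (Nat.mul_le_mul_left _ h1).trans ?_
  rw [← pow_add]
  refine le_of_eq ?_
  congr 1
  omega

/-- the last front is small -/
theorem FF_le (hb : 10 * m ≤ la (era l)) (hk : k + 2 ≤ m) :
    10 ^ 6 * FF m l k ≤ Nj l * vlo m k (era l) := by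
  have h1 := vlo_ge (k := k) hb hk
  have h2 := Pool.Agent.Helper27.T5.ef_sub_le (l := l) hb (show k + 1 < m by omega)
  have h3 := Pool.Agent.Helper27.T5.lt_ef (l := l) hb (show k + 1 < m by omega)
  have h4 := Pool.Agent.Helper27.T5.W_ge (j := era l) hb (show k + 1 < m by omega)
  have h5 : Nj (ef m (k + 1) l) ≤ Nj l * 1000037 ^ (ef m (k + 1) l - l) :=
    Pool.Agent.Helper30.ET.Nj_upper h3.le
  have h6 : (1000037 : ℕ) ^ (ef m (k + 1) l - l) ≤ (10 ^ 6) ^ (2 * (ef m (k + 1) l - l)) := by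
    rw [pow_mul]
    exact Nat.pow_le_pow_left (by norm_num) _
  have h7 : (10 ^ 6 : ℕ) * (10 ^ 6) ^ (2 * (ef m (k + 1) l - l)) ≤
      (10 ^ 6) ^ W m (era l) (k + 1) := by
    rw [← pow_succ']
    exact Nat.pow_le_pow_right (by norm_num) (by omega)
  unfold FF
  calc 10 ^ 6 * Nj (ef m (k + 1) l)
      ≤ 10 ^ 6 * (Nj l * (10 ^ 6) ^ (2 * (ef m (k + 1) l - l))) :=
        Nat.mul_le_mul_left _ (h5.trans (Nat.mul_le_mul_left _ h6))
    _ = Nj l * (10 ^ 6 * (10 ^ 6) ^ (2 * (ef m (k + 1) l - l))) := by ring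
    _ ≤ Nj l * vlo m k (era l) := Nat.mul_le_mul_left _ (h7.trans h1)

theorem FF_le_XA (hb : 10 * m ≤ la (era l)) (hk : k + 2 ≤ m) :
    10 ^ 6 * (FF m l k * LA m k (era l)) ≤ XA m k l := by
  have h := Nat.mul_le_mul_right (LA m k (era l)) (FF_le (l := l) hb hk)
  rw [XA_eq]
  calc 10 ^ 6 * (FF m l k * LA m k (era l)) = 10 ^ 6 * FF m l k * LA m k (era l) := by ring
    _ ≤ Nj l * vlo m k (era l) * LA m k (era l) := h
    _ = _ := by ring

theorem XA_succ_ge (hu : used m l) (hb : 10 * m ≤ la (era l)) (hm : 1 < m) :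
    1000003 * XA m k l ≤ XA m k (l + 1) := by
  have h1 : Nj l * 1000003 ≤ Nj (l + 1) := Pool.Agent.Helper50.ET.Nj_succ_ge l
  have h2 := (Pool.Agent.Helper27.T5.era_add_two hu hb hm).1
  unfold XA XT
  rw [h2]
  calc 1000003 * (Nj l * TA m k (era l)) = (Nj l * 1000003) * TA m k (era l) := by ring
    _ ≤ _ := Nat.mul_le_mul_right _ h1

theorem vhi_ge (hu : used m l) (hb : 10 * m ≤ la (era l)) (hk : k + 2 ≤ m) :
    16 * vlo m k (era l) ≤ vhi m k l := by
  have h1 := FF_le_XA (l := l) hb hk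
  have h2 := XA_succ_ge (k := k) hu hb (by omega)
  have h3 := XA_eq m k l
  unfold vhi
  rw [Nat.le_div_iff_mul_le (Nat.mul_pos (Nj_pos' l) (LA_pos m k (era l)))]
  have h4 : 16 * vlo m k (era l) * (Nj l * LA m k (era l)) = 16 * XA m k l := by
    rw [h3]; ring
  rw [h4]
  omega

/-- number of window elements -/
theorem card_Vw_ge (hu : used m l) (hb : 10 * m ≤ la (era l)) (hk : k + 2 ≤ m) {w : Key → ℕ}
    (hw : ∀ q, w q < Mk m q) :
    3 * Real.sqrt (vlo m k (era l)) ≤ ((Vw m k l w).card : ℝ) := by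
  have h1 := vhi_ge (k := k) hu hb hk
  have h0 : 1 ≤ vlo m k (era l) := by unfold vlo; exact Nat.le_add_left 1 _
  have hρ : ∀ L b, (fun L b => w (bkey l L b)) L b < 2 ^ L := by
    intro L b
    have := hw (bkey l L b)
    rwa [Mk_block] at this
  have h2 := card_VW_ge (vlo m k (era l)) (vhi m k l) (fun L b => w (bkey l L b)) hρ
    (vhi m k l) (by omega) h1 le_rfl
  have h3 : (((VW (vlo m k (era l)) (vhi m k l) (fun L b => w (bkey l L b))).filter
      (fun v => v < vhi m k l)).card : ℝ) ≤ ((Vw m k l w).card : ℝ) := by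
    unfold Vw
    exact_mod_cast card_le_card (filter_subset _ _)
  have h4 : 4 * Real.sqrt (vlo m k (era l)) ≤ Real.sqrt (vhi m k l) := by
    rw [show (4 : ℝ) * Real.sqrt (vlo m k (era l)) =
      Real.sqrt (4 ^ 2 * (vlo m k (era l) : ℝ)) by
        rw [Real.sqrt_mul (by positivity), Real.sqrt_sq (by norm_num)]]
    apply Real.sqrt_le_sqrt
    have : ((16 * vlo m k (era l) : ℕ) : ℝ) ≤ (vhi m k l : ℝ) := by exact_mod_cast h1
    push_cast at this
    linarith
  linarith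

/-! ## sizes of the codes -/

/-- constant of the primes of the first `k` static levels -/
noncomputable def KK (k : ℕ) : ℕ := ∑ t ∈ range k, 2 * Pool.Agent.Helper30.T5.spp (t + 2)

theorem KK_ge {t : ℕ} (ht : t < k) : 2 * Pool.Agent.Helper30.T5.spp (t + 2) ≤ KK k := by
  unfold KK
  exact Finset.single_le_sum (f := fun t => 2 * Pool.Agent.Helper30.T5.spp (t + 2))
    (fun _ _ => Nat.zero_le _) (mem_range.2 ht)

/-- late eras -/
def Late (m k j : ℕ) : Prop := 10 * m ≤ la j ∧ ∀ i, i + 1 ≤ m → KK k ≤ W m j i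

theorem exists_late (m k : ℕ) (hm : 0 < m) : ∃ j0 : ℕ, ∀ j ≥ j0, Late m k j := by
  obtain ⟨j1, h1⟩ := Pool.Agent.Helper27.T5.la_unbounded (10 * m)
  obtain ⟨j2, h2⟩ := Pool.Agent.Helper30.T5.exists_log_pow_le_W hm ((KK k : ℕ) : ℝ) 0
  refine ⟨max j1 j2, fun j hj => ⟨h1 j ((le_max_left _ _).trans hj), fun i hi => ?_⟩⟩
  have := h2 j ((le_max_right _ _).trans hj) i hi
  rw [pow_zero, mul_one] at this
  exact_mod_cast this

theorem Nj_mono' {a b : ℕ} (h : a ≤ b) : Nj a ≤ Nj b :=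
  Nat.le_of_dvd (Nj_pos' b) (Pool.Agent.Helper75.T4.Nj_dvd h)

/-- the ranges of the levels at least double -/
theorem FF_size (hj : Late m k (era l)) (hk : k + 2 ≤ m) {t : ℕ} (ht : t < k) :
    2 * FF m l t ≤ FF m l (t + 1) * QQ m (era l) t := by
  obtain ⟨hb, hW⟩ := hj
  have h1 := KK_ge (k := k) ht
  have h2 := hW (t + 2) (by omega)
  have h3 := Pool.Agent.Helper27.T5.ef_sub_le (l := l) hb (show t + 1 < m by omega)
  have h4 := Pool.Agent.Helper27.T5.lt_ef (l := l) hb (show t + 1 < m by omega)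
  have h5 : Nj (ef m (t + 1) l) ≤ Nj l * 1000037 ^ (ef m (t + 1) l - l) :=
    Pool.Agent.Helper30.ET.Nj_upper h4.le
  have h6 : (1000037 : ℕ) ^ (ef m (t + 1) l - l) ≤ (10 ^ 6) ^ (2 * (ef m (t + 1) l - l)) := by
    rw [pow_mul]
    exact Nat.pow_le_pow_left (by norm_num) _
  have h8 : 1024 * W m (era l) (t + 2) ≤ W m (era l) (t + 1) := by
    have e1 := Pool.Agent.Helper27.T5.rt_ge (j := era l) hb (show 0 < m by omega)
    have e2 := Pool.Agent.Helper27.T5.W_succ (j := era l) (show t + 1 < m by omega)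
    rw [e2]
    exact Nat.mul_le_mul_right _ (le_trans (by norm_num) e1)
  have h9 : (10 ^ 6) ^ (W m (era l) (t + 1) - W m (era l) (t + 2)) ≤
      QQ m (era l) t * Pool.Agent.Helper30.T5.spp (t + 2) := by
    have := Pool.Agent.Helper30.T5.le_Qs_mul (m := m) (j := era l) (i := t + 2) (by omega)
      (le_trans (by norm_num) (Pool.Agent.Helper27.T5.rt_ge (j := era l) hb (show 0 < m by omega)))
    exact this
  have h10 : 2 * Pool.Agent.Helper30.T5.spp (t + 2) ≤ (10 ^ 6) ^ W m (era l) (t + 2) :=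
    (h1.trans h2).trans (Nat.lt_pow_self (by norm_num)).le
  have h11 : Nj l ≤ Nj (ef m (t + 2) l) := by
    refine Nj_mono' ?_
    have := Pool.Agent.Helper27.T5.lt_ef (l := l) (i := t + 2) hb (by omega)
    exact this.le
  have hs : 0 < Pool.Agent.Helper30.T5.spp (t + 2) := Pool.Agent.Helper30.T5.spp_pos _
  refine Nat.le_of_mul_le_mul_right ?_ hs
  unfold FF
  calc 2 * Nj (ef m (t + 1) l) * Pool.Agent.Helper30.T5.spp (t + 2)
      = Nj (ef m (t + 1) l) * (2 * Pool.Agent.Helper30.T5.spp (t + 2)) := by ring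
    _ ≤ (Nj l * (10 ^ 6) ^ (2 * (ef m (t + 1) l - l))) * (10 ^ 6) ^ W m (era l) (t + 2) :=
        Nat.mul_le_mul (h5.trans (Nat.mul_le_mul_left _ h6)) h10
    _ = Nj l * (10 ^ 6) ^ (2 * (ef m (t + 1) l - l) + W m (era l) (t + 2)) := by
        rw [pow_add]; ring
    _ ≤ Nj l * (10 ^ 6) ^ (W m (era l) (t + 1) - W m (era l) (t + 2)) := by
        refine Nat.mul_le_mul_left _ (Nat.pow_le_pow_right (by norm_num) ?_)
        omega
    _ ≤ Nj (ef m (t + 2) l) * (QQ m (era l) t * Pool.Agent.Helper30.T5.spp (t + 2)) :=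
        Nat.mul_le_mul h11 h9
    _ = Nj (ef m (t + 1 + 1) l) * QQ m (era l) t * Pool.Agent.Helper30.T5.spp (t + 2) := by
        ring_nf

/-! ## range of the elements -/

theorem c1_lt (m l : ℕ) (w : Key → ℕ) (x : Fin 3 → ℕ) : c1 m l w x < FF m l 0 :=
  cv_lt pr_prime pr_inj _ _

theorem FF_pos (m l t : ℕ) : 0 < FF m l t := Nj_pos' _

theorem LL_QQ_pos (m j t : ℕ) : 0 < LL (QQ m j) t :=
  LL_pos (fun i _ => Pool.Agent.Helper30.T5.Qs_pos m j (i + 2))

theorem cs_lt (m l t : ℕ) (w : Key → ℕ) (y : Fin 3 → ℕ) :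
    cs m l t w y < FF m l (t + 1) * LL (QQ m (era l)) (t + 1) := by
  have h := fc_lt (ps_prime t) (ps_inj t) (FF m l (t + 1) * LL (QQ m (era l)) t)
    (Nat.mul_pos (FF_pos m l _) (LL_QQ_pos m (era l) t)) (Ss m l t).e
    (fun i => Lg (ps t i) ((Ss m l t).e i) (y i) + (Ss m l t).rho w i y)
  rw [LL_succ, ← mul_assoc, QQ_eq_NN]
  exact h

theorem dvd_cs (m l t : ℕ) (w : Key → ℕ) (y : Fin 3 → ℕ) :
    FF m l (t + 1) * LL (QQ m (era l)) t ∣ cs m l t w y :=
  dvd_fc (ps_prime t) (ps_inj t) (FF m l (t + 1) * LL (QQ m (era l)) t) (Ss m l t).e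
    (fun i => Lg (ps t i) ((Ss m l t).e i) (y i) + (Ss m l t).rho w i y)

/-- the sum of the codes -/
theorem codes_lt (hj : Late m k (era l)) (hk : k + 2 ≤ m) (w : Key → ℕ) (x : Fin 3 → ℕ)
    (y : Fin k → (Fin 3 → ℕ)) :
    c1 m l w x + ∑ t : Fin k, cs m l t w (y t) < 2 * (FF m l k * LA m k (era l)) := by
  refine tower_size (fun t => FF m l t * LL (QQ m (era l)) t) (c1 m l w x) ?_ k ?_
    (fun t => cs m l t w (y t)) (fun t => cs_lt m l t w (y t))
  · simp only [LL_zero, mul_one]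
    exact c1_lt m l w x
  · intro t ht
    have h := Nat.mul_le_mul_right (LL (QQ m (era l)) t) (FF_size (l := l) hj hk ht)
    simp only [LL_succ]
    calc 2 * (FF m l t * LL (QQ m (era l)) t) = 2 * FF m l t * LL (QQ m (era l)) t := by ring
      _ ≤ FF m l (t + 1) * QQ m (era l) t * LL (QQ m (era l)) t := h
      _ = _ := by ring

/-- **CNT (range).** -/
theorem AA_range (hj : Late m k (era l)) (hk : k + 2 ≤ m) {w : Key → ℕ} {a : ℕ}
    (ha : a ∈ AA m k l w) : XA m k l ≤ a ∧ a < XA m k (l + 1) := by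
  unfold AA scaleSet at ha
  rw [mem_image] at ha
  obtain ⟨⟨⟨x, y⟩, u⟩, hq, rfl⟩ := ha
  simp only [mem_product, mem_image] at hq
  obtain ⟨⟨hx, hy⟩, v, hv, rfl⟩ := hq
  have hv' : vlo m k (era l) ≤ v ∧ v < vhi m k l := by
    unfold Vw VW at hv
    rw [mem_filter, mem_Ico] at hv
    exact hv.1
  have h1 := codes_lt hj hk w x y
  have hN : 0 < Nj l * LA m k (era l) := Nat.mul_pos (Nj_pos' l) (LA_pos m k (era l))
  refine ⟨?_, ?_⟩
  · rw [XA_eq]
    exact (Nat.mul_le_mul_left _ hv'.1).trans (Nat.le_add_left _ _)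
  · have h2 : v + 1 ≤ vhi m k l := hv'.2
    unfold vhi at h2
    rw [Nat.le_div_iff_mul_le hN] at h2
    have h3 : (v + 1) * (Nj l * LA m k (era l)) =
        Nj l * LA m k (era l) * v + Nj l * LA m k (era l) := by ring
    simp only at h1 ⊢
    omega

/-! ## decoding -/

theorem hkey_dep (l : ℕ) (w : Key → ℕ) (f : Fin 3) (x y : Fin 3 → ℕ)
    (h : ∀ g, rk (ordK l) g < rk (ordK l) f → x g = y g) :
    w (hkey l 1 f (mask (pre l f) x)) = w (hkey l 1 f (mask (pre l f) y)) := by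
  have : mask (pre l f) x = mask (pre l f) y := by
    funext g
    unfold mask
    by_cases hg : g ∈ pre l f
    · rw [if_pos hg, if_pos hg]
      unfold pre at hg
      split_ifs at hg with h1
      · exact absurd hg (Finset.notMem_empty _)
      · exact h g (Finset.mem_filter.1 hg).2
    · rw [if_neg hg, if_neg hg]
  rw [this]

/-- the code of the main level modulo `Nj j'`, `j' ≤ ef m 1 l`, component by component -/
theorem c1_cast (m l : ℕ) (w : Key → ℕ) (x : Fin 3 → ℕ) (f : Fin 3) (hx : (x f).Coprime (pr f))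
    {j' : ℕ} (hj : j' ≤ ef m 1 l) :
    ((c1 m l w x : ℕ) : ZMod (pr f ^ av j' f)) = Lg (pr f) (av j' f) (x f) +
      ((w (hkey l 1 f (mask (pre l f) x)) : ℕ) : ZMod (pr f ^ av j' f)) := by
  have hle : av j' f ≤ av (ef m 1 l) f := Pool.Agent.Helper75.T4.cnt_monotone f hj
  have h : ((c1 m l w x : ℕ) : ZMod (pr f ^ av (ef m 1 l) f)) =
      Lg (pr f) (av (ef m 1 l) f) (x f) +
        ((w (hkey l 1 f (mask (pre l f) x)) : ℕ) : ZMod (pr f ^ av (ef m 1 l) f)) :=
    cv_cast_comp pr_prime pr_inj (av (ef m 1 l)) (cmp1 m l w x) f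
  have h1 := congrArg (ZMod.castHom (pow_dvd_pow (pr f) hle) (ZMod (pr f ^ av j' f))) h
  rw [map_natCast, map_add, map_natCast, Lg_red (pr_prime f) (pr_ne_two f) _ _ _ hx hle] at h1
  exact h1

theorem mem_X1 {x : Fin 3 → ℕ} (hx : x ∈ X1 l) (f : Fin 3) :
    (x f).Prime ∧ (x f).Coprime (pr f) ∧ (x f) ^ 2 < pr f ^ av l f := by
  unfold X1 TT at hx
  rw [Fintype.mem_piFinset] at hx
  exact mem_T1.1 (hx f)

/-- decoding of the main level -/
theorem main_dec (hl : l ≤ ef m 1 l) (w : Key → ℕ) (T : ℕ) :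
    ((X1 l).filter (fun x => c1 m l w x ≡ T [MOD Nj l])).card ≤ (10 ^ 7) ^ 3 := by
  have key := Pool.Agent.Helper3.T4.card_code_le (p := pr) pr_prime pr_ne_two (av l)
    (rk (ordK l))
    (fun f x => ((w (hkey l 1 f (mask (pre l f) x)) : ℕ) : ZMod (pr f ^ av l f)))
    (fun f x y h => by rw [hkey_dep l w f x y h])
    (fun f => ((T : ℕ) : ZMod (pr f ^ av l f)))
    ((X1 l).filter (fun x => c1 m l w x ≡ T [MOD Nj l])) ?_
  · refine key.trans ?_
    rw [Fin.prod_univ_three]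
    change (1000003 - 1) * (1000033 - 1) * (1000037 - 1) ≤ (10 ^ 7) ^ 3
    norm_num
  · intro x hx f
    obtain ⟨h1, h2⟩ := Finset.mem_filter.1 hx
    obtain ⟨-, g2, g3⟩ := mem_X1 h1 f
    refine ⟨g2, g3, ?_⟩
    rw [← c1_cast m l w x f g2 hl, ZMod.natCast_eq_natCast_iff]
    exact h2.of_dvd (pow_dvd_NN pr (av l) f)

theorem ps_ne_two (t : ℕ) (f : Fin 3) : ps t f ≠ 2 := by
  have := Pool.Agent.Helper30.T5.million_lt_sp (3 * (t + 2) + f)
  unfold ps
  intro h
  rw [h] at this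
  norm_num at this

theorem cop_ps (m l t : ℕ) (f : Fin 3) :
    (FF m l (t + 1) * LL (QQ m (era l)) t).Coprime (ps t f) := by
  refine Nat.Coprime.mul_left (Pool.Agent.Helper30.T5.coprime_Nj_sp _ _) ?_
  unfold LL
  refine Nat.Coprime.prod_left (fun i hi => ?_)
  rw [mem_range] at hi
  unfold QQ Pool.Agent.Helper30.T5.Qs
  refine Nat.Coprime.prod_left (fun g _ => ?_)
  unfold Pool.Agent.Helper30.T5.Qf ps
  refine Nat.Coprime.pow_left _ (Pool.Agent.Helper30.T5.coprime_sp ?_)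
  have h1 := g.2
  have h2 := f.2
  omega

/-- decoding of a static level -/
theorem static_dec (m l t : ℕ) (w : Key → ℕ) (T : ℕ) :
    ((Ys m (era l) t).filter (fun y => cs m l t w y ≡ T [MOD QQ m (era l) t])).card ≤
      ∏ i, (ps t i - 1) := by
  refine Pool.Agent.Helper73.T5.lc_dec_sadm (ps_prime t) (ps_ne_two t) (ps_inj t)
    (FF m l (t + 1) * LL (QQ m (era l)) t) (cop_ps m l t) (es m (era l) t) (es m (era l) t)
    (fun i => le_rfl) (fun i => i.val) ((Ss m l t).rho w) ?_ (Ys m (era l) t) (Ys_adm _ _ _) T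
  · intro i x y h
    have : mask (univ.filter (fun g => g < i)) x = mask (univ.filter (fun g => g < i)) y := by
      funext g
      unfold mask
      by_cases hg : g ∈ univ.filter (fun g => g < i)
      · rw [if_pos hg, if_pos hg]
        exact h g (Finset.mem_filter.1 hg).2
      · rw [if_neg hg, if_neg hg]
    unfold Side.rho Ss
    simp only
    rw [this]

/-- the constant of the decoding -/
noncomputable def DD (k : ℕ) : ℕ := (10 ^ 7) ^ 3 * ∏ t ∈ range k, ∏ i, (ps t i - 1)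

/-- the map from the data to the elements -/
noncomputable def elm (m k l : ℕ) (w : Key → ℕ)
    (q : ((Fin 3 → ℕ) × (Fin k → (Fin 3 → ℕ))) × ℕ) : ℕ :=
  (c1 m l w q.1.1 + ∑ t : Fin k, cs m l t w (q.1.2 t)) + Nj l * LL (QQ m (era l)) k * q.2

theorem elm_mem (m k l : ℕ) (w : Key → ℕ) (q : ((Fin 3 → ℕ) × (Fin k → (Fin 3 → ℕ))) × ℕ)
    (hq : q ∈ (X1 l ×ˢ Fintype.piFinset (fun t : Fin k => Ys m (era l) t)) ×ˢ Vw m k l w) :
    elm m k l w q ∈ AA m k l w := by
  rw [mem_product] at hq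
  unfold AA scaleSet
  rw [mem_image]
  refine ⟨(q.1, Nj l * LA m k (era l) * q.2), ?_, rfl⟩
  rw [mem_product, mem_image]
  exact ⟨hq.1, q.2, hq.2, rfl⟩

theorem elm_card (hl : ∀ i, 1 ≤ i → i ≤ k + 1 → l ≤ ef m i l) (w : Key → ℕ) (a : ℕ) :
    (((X1 l ×ˢ Fintype.piFinset (fun t : Fin k => Ys m (era l) t)) ×ˢ Vw m k l w).filter
      (fun q => elm m k l w q = a)).card ≤ DD k := by
  have h := Pool.Agent.Helper75.T5.dec_card (X1 l) (c1 m l w) k (Ys m (era l))
    (fun t y => cs m l t w y) (QQ m (era l)) (fun t => ∏ i, (ps t i - 1)) (Nj l) ((10 ^ 7) ^ 3)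
    (Nj_pos' l) (fun t _ => Pool.Agent.Helper30.T5.Qs_pos m (era l) (t + 2))
    (main_dec (hl 1 le_rfl (by omega)) w)
    (fun t ht y _ => (Nat.mul_dvd_mul_right (Pool.Agent.Helper75.T4.Nj_dvd
      (hl (t + 2) (by omega) (by omega))) _).trans (dvd_cs m l t w y))
    (fun t _ T => static_dec m l t w T) (Vw m k l w) a
  rw [DD]
  exact h

/-- many elements -/
theorem card_AA_ge (hl : ∀ i, 1 ≤ i → i ≤ k + 1 → l ≤ ef m i l) (w : Key → ℕ) :
    (X1 l).card * (∏ t ∈ range k, (Ys m (era l) t).card) * (Vw m k l w).card ≤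
      DD k * (AA m k l w).card := by
  classical
  have h2 := Finset.card_le_mul_card_image_of_maps_to (elm_mem m k l w) (DD k)
    (fun a _ => elm_card hl w a)
  have h3 : ((X1 l ×ˢ Fintype.piFinset (fun t : Fin k => Ys m (era l) t)) ×ˢ
      Vw m k l w).card = (X1 l).card * (∏ t ∈ range k, (Ys m (era l) t).card) *
        (Vw m k l w).card := by
    rw [Finset.card_product, Finset.card_product, Fintype.card_piFinset,
      Fin.prod_univ_eq_prod_range (fun t => (Ys m (era l) t).card) k]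
  rw [← h3]
  exact h2

end Pool.Agent.Helper50.T5
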