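import Pool.Agent.Helper22.NEAR.Defs
import Pool.Agent.Helper50.T5.CntA

/-!
# T5a (MP_12a1af), block NEAR, NE2: the contexts of a bad pair are in a finite set
-/

set_option autoImplicit false

namespace Pool.Agent.Helper50.T5

open Finset Pool.Agent.Helper27.T4 Pool.Agent.Helper27.T5 Pool.Agent.Helper22.HW
  Pool.Agent.Helper22.SL Pool.Agent.Helper57.T5 Pool.Agent.Helper11.T5 Pool.Agent.Helper63.T5
  Pool.Agent.Helper22.NEAR
open Pool.Agent.Helper5.ET (Nj era pr)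

/-- constant -/
noncomputable def KS (k : ℕ) : ℕ := 3 + ∑ t ∈ range (k + 1), Pool.Agent.Helper30.T5.spq (t + 1)

theorem KS_ge {k t : ℕ} (ht : t ≤ k) :
    2 * 1000037 * Pool.Agent.Helper30.T5.spq (t + 1) ≤ (10 ^ 6) ^ KS k := by
  have h1 : Pool.Agent.Helper30.T5.spq (t + 1) ≤
      ∑ t ∈ range (k + 1), Pool.Agent.Helper30.T5.spq (t + 1) :=
    Finset.single_le_sum (f := fun t => Pool.Agent.Helper30.T5.spq (t + 1))
      (fun _ _ => Nat.zero_le _) (mem_range.2 (by omega))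
  unfold KS
  rw [pow_add]
  exact Nat.mul_le_mul (by norm_num) (h1.trans (Nat.lt_pow_self (by norm_num)).le)

/-- elements of the inner windows are small -/
theorem Zw_lt {m k l t : ℕ} {w : Key → ℕ} (hj : Late m k (era l))
    (hW : 8 * KS k ≤ W m (era l) (t + 1)) (hu : used m l) (hk : k + 2 ≤ m) (ht : t ≤ k)
    {u : ℕ} (hz : u ∈ Zw m k l t w) :
    u < Nj l * LL (QQ m (era l)) t *
      (10 ^ 6) ^ (W m (era l) (t + 1) + W m (era l) (t + 1) / 8) := by
  obtain ⟨y, hy, v, hv, rfl⟩ := mem_Zw.1 hz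
  have hv' : v + 1 ≤ vhi m k l := by
    unfold Vw VW at hv
    rw [mem_filter, mem_Ico] at hv
    exact hv.1.2
  have hN : 0 < Nj l * LA m k (era l) := Nat.mul_pos (Nj_pos' l) (LA_pos m k (era l))
  unfold vhi at hv'
  rw [Nat.le_div_iff_mul_le hN] at hv'
  -- the codes
  have h1 := codes_lt hj hk w (fun _ => 0) (fun t : Fin k => y t)
  have h2 : ∑ t ∈ Ico t k, cs m l t w (y t) ≤ ∑ t : Fin k, cs m l t w (y t) := by
    rw [Fin.sum_univ_eq_sum_range (fun t => cs m l t w (y t)) k]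
    refine Finset.sum_le_sum_of_subset ?_
    intro i hi
    rw [mem_Ico] at hi
    rw [mem_range]
    exact hi.2
  have h3 : (v + 1) * (Nj l * LA m k (era l)) =
      Nj l * LA m k (era l) * v + Nj l * LA m k (era l) := by ring
  have h4 : ∑ t ∈ Ico t k, cs m l t w (y t) + Nj l * LA m k (era l) * v < XA m k (l + 1) := by
    omega
  refine h4.trans_le ?_
  -- the size of the scale
  obtain ⟨hb, -⟩ := hj
  have he := (Pool.Agent.Helper27.T5.era_add_two hu hb (by omega)).1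
  have h5 : Nj (l + 1) ≤ Nj l * 1000037 := by
    have := Pool.Agent.Helper30.ET.Nj_upper (Nat.le_succ l)
    simpa using this
  have h6 : LA m k (era l) * vlo m k (era l) ≤ 2 * (10 ^ 6) ^ W m (era l) 1 := by
    have e1 := LA_le (k := k) (j := era l) hb hk
    have e2 : (10 ^ 6) ^ (W m (era l) 1 - W m (era l) (k + 1)) ≤ (10 ^ 6) ^ W m (era l) 1 :=
      Nat.pow_le_pow_right (by norm_num) (Nat.sub_le _ _)
    have e3 := Nat.mul_div_le ((10 ^ 6) ^ W m (era l) 1) (LA m k (era l))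
    unfold vlo
    rw [mul_add, mul_one]
    omega
  have h7 : (10 ^ 6) ^ W m (era l) 1 ≤ LL (QQ m (era l)) t *
      Pool.Agent.Helper30.T5.spq (t + 1) * (10 ^ 6) ^ W m (era l) (t + 1) := by
    have e1 := Pool.Agent.Helper30.T5.le_Lp_mul (m := m) (j := era l) (s := t + 1) (by omega)
      (by omega) (le_trans (by norm_num)
        (Pool.Agent.Helper27.T5.rt_ge (j := era l) hb (by omega)))
    rw [← LL_QQ] at e1
    have e2 : W m (era l) (t + 1) ≤ W m (era l) 1 :=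
      Pool.Agent.Helper30.T5.W_anti m _ (by omega)
    calc (10 ^ 6) ^ W m (era l) 1 = (10 ^ 6) ^ (W m (era l) 1 - W m (era l) (t + 1)) *
          (10 ^ 6) ^ W m (era l) (t + 1) := by
          rw [← pow_add]
          congr 1
          omega
      _ ≤ _ := Nat.mul_le_mul_right _ e1
  have h8 : 2 * 1000037 * Pool.Agent.Helper30.T5.spq (t + 1) ≤
      (10 ^ 6) ^ (W m (era l) (t + 1) / 8) :=
    (KS_ge ht).trans (Nat.pow_le_pow_right (by norm_num) (by omega))
  unfold XA XT TA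
  rw [he]
  calc Nj (l + 1) * (LA m k (era l) * vlo m k (era l))
      ≤ (Nj l * 1000037) * (2 * (LL (QQ m (era l)) t *
          Pool.Agent.Helper30.T5.spq (t + 1) * (10 ^ 6) ^ W m (era l) (t + 1))) :=
        Nat.mul_le_mul h5 (h6.trans (Nat.mul_le_mul_left _ h7))
    _ = Nj l * LL (QQ m (era l)) t * ((10 ^ 6) ^ W m (era l) (t + 1) *
          (2 * 1000037 * Pool.Agent.Helper30.T5.spq (t + 1))) := by ring
    _ ≤ Nj l * LL (QQ m (era l)) t * ((10 ^ 6) ^ W m (era l) (t + 1) *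
          (10 ^ 6) ^ (W m (era l) (t + 1) / 8)) :=
        Nat.mul_le_mul_left _ (Nat.mul_le_mul_left _ h8)
    _ = _ := by rw [← pow_add]

theorem pow_pr_le (f : Fin 3) (n : ℕ) : pr f ^ n ≤ (10 ^ 6) ^ (2 * n) := by
  rw [pow_mul]
  exact Nat.pow_le_pow_left ((Pool.Agent.Helper50.ET.pr_le f).trans (by norm_num)) n

/-- **NE2.** -/
theorem bad_ctx (k : ℕ) : ∃ j0 : ℕ, ∀ j t l' l, j0 ≤ j → PD (k + 2) k j (t + 1) l' l →
    ∀ (w : Key → ℕ) (R : ℝ), 0 ≤ R → Bad (k + 2) k j t l' l R w →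
    ∃ c ∈ Jx (k + 2) j t l' l, R < cNx (k + 2) k j t l' l w c := by
  obtain ⟨j1, h1⟩ := exists_late (k + 2) k (by omega)
  obtain ⟨j2, h2⟩ := Pool.Agent.Helper30.T5.exists_log_pow_le_W (m := k + 2) (by omega)
    ((8 * KS k : ℕ) : ℝ) 0
  refine ⟨max j1 j2, ?_⟩
  rintro j t l' l hj hP w R hR ⟨⟨α, E, κ₂, N⟩, hE, hκ, hlt⟩
  have hlate := h1 j ((le_max_left _ _).trans hj)
  have htk : t + 1 ≤ k := hP.ak
  have hW : 8 * KS k ≤ W (k + 2) j (t + 1) := by
    have := h2 j ((le_max_right _ _).trans hj) (t + 1) (by omega)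
    rw [pow_zero, mul_one] at this
    exact_mod_cast this
  have hlt' : l' < l := hP.lt
  have hef : l < ef (k + 2) (t + 1) l :=
    Pool.Agent.Helper27.T5.lt_ef (by rw [hP.el]; exact hP.big) (by omega)
  have hef2 : 64 * (ef (k + 2) (t + 1) l - l) ≤ W (k + 2) j (t + 1) := by
    have := Pool.Agent.Helper27.T5.ef_sub_le (m := k + 2) (i := t + 1) (l := l)
      (by rw [hP.el]; exact hP.big) (by omega)
    rwa [hP.el] at this
  have hpj : 1 < pj j := (Pool.Agent.Helper5.ET.pr_prime _).one_lt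
  have hD : 0 < Pool.Agent.Helper22.NEAR.DD (k + 2) j t l' l := pow_pos (by omega) _
  simp only at hE hκ hlt
  -- the same number of solutions
  have hcl : ∀ i, clx (α % Pool.Agent.Helper22.NEAR.DD (k + 2) j t l' l, E % Pool.Agent.Helper22.NEAR.DD (k + 2) j t l' l, κ₂, N) i %
      Pool.Agent.Helper22.NEAR.DD (k + 2) j t l' l = clx (α, E, κ₂, N) i % Pool.Agent.Helper22.NEAR.DD (k + 2) j t l' l := by
    intro i
    unfold clx
    simp only
    exact Nat.ModEq.add (Nat.mod_modEq _ _) (Nat.ModEq.mul_right _ (Nat.mod_modEq _ _))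
  have hcN : cNx (k + 2) k j t l' l w (α % Pool.Agent.Helper22.NEAR.DD (k + 2) j t l' l, E % Pool.Agent.Helper22.NEAR.DD (k + 2) j t l' l, κ₂, N) =
      cNx (k + 2) k j t l' l w (α, E, κ₂, N) := by
    unfold cNx Pool.Agent.Helper22.HW.cN
    simp only [hcl]
  refine ⟨(α % Pool.Agent.Helper22.NEAR.DD (k + 2) j t l' l, E % Pool.Agent.Helper22.NEAR.DD (k + 2) j t l' l, κ₂, N), ?_, by rw [hcN]; exact hlt⟩
  -- bound for `N`
  have hpos : 0 < cNx (k + 2) k j t l' l w (α, E, κ₂, N) := by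
    have : (0 : ℝ) < (cNx (k + 2) k j t l' l w (α, E, κ₂, N) : ℝ) := lt_of_le_of_lt hR hlt
    exact_mod_cast this
  unfold cNx Pool.Agent.Helper22.HW.cN at hpos
  rw [Finset.card_pos] at hpos
  obtain ⟨⟨i, u, u'⟩, hq⟩ := hpos
  simp only [mem_filter, mem_product, mem_range] at hq
  obtain ⟨⟨hi, hu, hu'⟩, he⟩ := hq
  have b1 := Zw_lt (by rw [hP.el]; exact hlate) (by rw [hP.el]; exact hW) hP.u le_rfl
    (by omega) hu
  have b2 := Zw_lt (by rw [hP.el']; exact hlate) (by rw [hP.el']; exact hW) hP.u' le_rfl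
    (by omega) hu'
  rw [hP.el] at b1
  rw [hP.el'] at b2
  set B := bm (k + 2) j t l' with hB
  have hBpos : 0 < B := Nat.mul_pos (Nj_pos' l') (LL_QQ_pos _ _ _)
  set Wt := W (k + 2) j (t + 1) with hWt
  have hWpos : 1 ≤ Wt := by
    have : 1 ≤ KS k := by unfold KS; omega
    omega
  have hD7 := hP.D7
  -- the two elements
  have c1 : u < B * (10 ^ 6) ^ (2 * Wt) := by
    have e1 : Nj l ≤ Nj l' * (10 ^ 6) ^ (2 * (l - l')) := by
      refine (Pool.Agent.Helper30.ET.Nj_upper hlt'.le).trans (Nat.mul_le_mul_left _ ?_)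
      rw [pow_mul]
      exact Nat.pow_le_pow_left (by norm_num) _
    refine b1.trans_le ?_
    calc Nj l * LL (QQ (k + 2) j) t * (10 ^ 6) ^ (Wt + Wt / 8)
        ≤ (Nj l' * (10 ^ 6) ^ (2 * (l - l'))) * LL (QQ (k + 2) j) t *
            (10 ^ 6) ^ (Wt + Wt / 8) := by gcongr
      _ = B * (10 ^ 6) ^ (2 * (l - l') + (Wt + Wt / 8)) := by
          rw [hB, bm, pow_add]; ring
      _ ≤ B * (10 ^ 6) ^ (2 * Wt) :=
          Nat.mul_le_mul_left _ (Nat.pow_le_pow_right (by norm_num) (by omega))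
  have c2 : u' < B * (10 ^ 6) ^ (2 * Wt) := by
    refine b2.trans_le ?_
    exact Nat.mul_le_mul_left _ (Nat.pow_le_pow_right (by norm_num) (by omega))
  have c3 : clx (α, E, κ₂, N) i % Pool.Agent.Helper22.NEAR.DD (k + 2) j t l' l + κ₂ * Pool.Agent.Helper22.NEAR.DD (k + 2) j t l' l ≤
      4 * (10 ^ 6) ^ (2 * Wt) := by
    have e1 : Pool.Agent.Helper22.NEAR.DD (k + 2) j t l' l ≤ (10 ^ 6) ^ (2 * Wt) := by
      refine (pow_pr_le _ _).trans (Nat.pow_le_pow_right (by norm_num) ?_)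
      omega
    have e2 := Nat.mod_lt (clx (α, E, κ₂, N) i) hD
    have e3 : κ₂ * Pool.Agent.Helper22.NEAR.DD (k + 2) j t l' l ≤ 3 * Pool.Agent.Helper22.NEAR.DD (k + 2) j t l' l :=
      Nat.mul_le_mul_right _ (by omega)
    omega
  have c4 : B * N < B * (6 * (10 ^ 6) ^ (2 * Wt)) := by
    rw [← he]
    have := Nat.mul_le_mul_left B c3
    calc u + u' + B * (clx (α, E, κ₂, N) i % Pool.Agent.Helper22.NEAR.DD (k + 2) j t l' l + κ₂ * Pool.Agent.Helper22.NEAR.DD (k + 2) j t l' l)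
        < B * (10 ^ 6) ^ (2 * Wt) + B * (10 ^ 6) ^ (2 * Wt) + B * (4 * (10 ^ 6) ^ (2 * Wt)) := by
          omega
      _ = _ := by ring
  have c5 : N < (10 ^ 6) ^ (3 * Wt) := by
    refine (Nat.lt_of_mul_lt_mul_left c4).trans_le ?_
    calc 6 * (10 ^ 6) ^ (2 * Wt) ≤ (10 ^ 6) * (10 ^ 6) ^ (2 * Wt) :=
          Nat.mul_le_mul_right _ (by norm_num)
      _ = (10 ^ 6) ^ (2 * Wt + 1) := (pow_succ' (10 ^ 6) (2 * Wt)).symm
      _ ≤ _ := Nat.pow_le_pow_right (by norm_num) (by omega)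
  unfold Jx
  simp only [mem_filter, mem_product, mem_range]
  refine ⟨⟨Nat.mod_lt _ hD, Nat.mod_lt _ hD, hκ, c5⟩, ?_⟩
  -- coprime
  have hdv : pj j ∣ Pool.Agent.Helper22.NEAR.DD (k + 2) j t l' l := dvd_pow_self _ (by omega)
  have h3 : E % Pool.Agent.Helper22.NEAR.DD (k + 2) j t l' l ≡ E [MOD pj j] :=
    Nat.mod_mod_of_dvd _ hdv
  show Nat.gcd (E % Pool.Agent.Helper22.NEAR.DD (k + 2) j t l' l) (pj j) = 1
  rw [h3.gcd_eq]
  exact hE

end Pool.Agent.Helper50.T5
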