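import Pool.Agent.Helper50.T5.CntA
import Pool.Agent.Helper39.T5.Cfg
import Pool.Agent.Helper5.T5.Pair

/-!
# T5a (MP_12a1af), block CNT: the number of elements of a state
-/

set_option autoImplicit false

namespace Pool.Agent.Helper50.T5

open Finset Pool.Agent.Helper27.T4 Pool.Agent.Helper27.T5
open Pool.Agent.Helper5.ET hiding Key vlo vhi Mk keysOf AA
open Pool.Agent.Helper57.T5 Pool.Agent.Helper39.T5 Pool.Agent.Helper11.T5

theorem le_era {j0 l : ℕ} (h : bb j0 ≤ l) : j0 ≤ era l := by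
  unfold era
  exact Nat.le_findGreatest
    (le_trans Pool.Agent.Helper39.ET.bb_strictMono.le_apply h) h

theorem card_Cfg_mul {m k l : ℕ} (hl : ∀ i, 1 ≤ i → i ≤ k + 1 → l ≤ ef m i l) (w : Key → ℕ) :
    (Cfg m k l).card * (Vw m k l w).card ≤ DD k * (AA m k l w).card := by
  have h := card_AA_ge hl w
  have h3 : (Cfg m k l).card = (X1 l).card * (∏ t ∈ range k, (Ys m (era l) t).card) := by
    unfold Cfg
    rw [Finset.card_product, Fintype.card_piFinset,
      Fin.prod_univ_eq_prod_range (fun t => (Ys m (era l) t).card) k]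
  rw [h3]
  exact h

theorem DD_pos (k : ℕ) : 0 < DD k := by
  unfold DD
  refine Nat.mul_pos (by positivity) (Finset.prod_pos fun t _ => Finset.prod_pos fun i _ => ?_)
  have := (ps_prime t i).one_lt
  omega

/-- **CNT (count).** -/
theorem count_all (m k : ℕ) (hk : k + 2 ≤ m) : ∃ (K0 : ℕ) (C : ℝ), 0 < C ∧
    ∀ l, K0 ≤ l → used m l → ∀ w : Key → ℕ, (∀ q, w q < Mk m q) →
      Real.sqrt (XA m k l) ≤ C * (l : ℝ) ^ 3 * ((AA m k l w).card : ℝ) := by
  obtain ⟨l0, h0⟩ := card_Cfg_ge m k hk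
  obtain ⟨j0, hj0⟩ := Pool.Agent.Helper27.T5.la_unbounded (10 * m)
  have hD : (0 : ℝ) < (DD k : ℝ) := by exact_mod_cast DD_pos k
  refine ⟨max (max l0 (bb j0)) 1, (DD k : ℝ) * (16 ^ (3 * k) * 672 ^ 3), by positivity, ?_⟩
  intro l hl hu w hw
  have hl1 : l0 ≤ l := (le_max_left _ _).trans ((le_max_left _ _).trans hl)
  have hl2 : bb j0 ≤ l := (le_max_right _ _).trans ((le_max_left _ _).trans hl)
  have hl3 : 1 ≤ l := (le_max_right _ _).trans hl
  have hb := hj0 (era l) (le_era hl2)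
  have hlr : (0 : ℝ) < (l : ℝ) := by exact_mod_cast hl3
  have h1 := h0 l hl1
  have h2 := card_Vw_ge (k := k) hu hb hk hw
  have h3 := card_Cfg_mul (k := k) (fun i h1 h2 =>
    (Pool.Agent.Helper27.T5.lt_ef (l := l) (i := i) hb (by omega)).le) w
  have h3' : ((Cfg m k l).card : ℝ) * ((Vw m k l w).card : ℝ) ≤
      (DD k : ℝ) * ((AA m k l w).card : ℝ) := by exact_mod_cast h3
  have h4 : Real.sqrt (XA m k l) = Real.sqrt ((Nj l * LA m k (era l) : ℕ) : ℝ) *
      Real.sqrt (vlo m k (era l)) := by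
    rw [XA_eq, Nat.cast_mul, Real.sqrt_mul (Nat.cast_nonneg _)]
  have hP : (0 : ℝ) < 16 ^ (3 * k) * (672 * (l : ℝ)) ^ 3 := by positivity
  rw [div_le_iff₀ hP] at h1
  have h5 : Real.sqrt (vlo m k (era l)) ≤ ((Vw m k l w).card : ℝ) := by
    have := Real.sqrt_nonneg (vlo m k (era l) : ℝ)
    linarith
  rw [h4]
  calc Real.sqrt ((Nj l * LA m k (era l) : ℕ) : ℝ) * Real.sqrt (vlo m k (era l))
      ≤ (((Cfg m k l).card : ℝ) * (16 ^ (3 * k) * (672 * (l : ℝ)) ^ 3)) *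
          ((Vw m k l w).card : ℝ) :=
        mul_le_mul h1 h5 (Real.sqrt_nonneg _) (by positivity)
    _ = (((Cfg m k l).card : ℝ) * ((Vw m k l w).card : ℝ)) *
          (16 ^ (3 * k) * (672 * (l : ℝ)) ^ 3) := by ring
    _ ≤ ((DD k : ℝ) * ((AA m k l w).card : ℝ)) * (16 ^ (3 * k) * (672 * (l : ℝ)) ^ 3) :=
        mul_le_mul_of_nonneg_right h3' hP.le
    _ = (DD k : ℝ) * (16 ^ (3 * k) * 672 ^ 3) * (l : ℝ) ^ 3 *
          ((AA m k l w).card : ℝ) := by rw [mul_pow]; ring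

/-- COUNT (statement of `Helper5/T5/Pair.lean`) -/
theorem countStmt (k : ℕ) : Pool.Agent.Helper5.T5.CountStmt k := by
  obtain ⟨K0, C, hC, h⟩ := count_all (k + 2) k le_rfl
  exact ⟨K0, 3, C, hC, h⟩

end Pool.Agent.Helper50.T5
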