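import Pool.Agent.Helper50.T5.Count
import Pool.Agent.Helper42.T5.FinalA

/-!
# T5a (MP_12a1af), block CNT: the count in the form of `Helper42/T5/FinalA.lean`
-/

set_option autoImplicit false

namespace Pool.Agent.Helper50.T5

/-- COUNT (statement of `Helper42/T5/FinalA.lean`) -/
theorem countB {m k : ℕ} (hk : k + 2 ≤ m) : Pool.Agent.Helper42.T5.CountB m k := by
  obtain ⟨K0, C, hC, h⟩ := count_all m k hk
  exact ⟨C, 3, K0, hC, h⟩

end Pool.Agent.Helper50.T5
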